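import Pool.Agent.Helper45.LinK.GoalsK
import Pool.Agent.Helper8.Abund.FDerivHolo

open Complex Metric Set Filter Topology MeasureTheory
open scoped ContDiff ComplexConjugate ComplexOrder

namespace Pool.Agent.Helper48.LinK

open Pool.Agent.Helper45.LinK Pool.Agent.Helper95.Lin

lemma pig_aux {b : ℕ} {E : Type} [NormedAddCommGroup E] [NormedSpace ℂ E] [FiniteDimensional ℂ E]
    (z₀ : Cn b) (r₁ r₂ C η : ℝ) (h2 : 0 < r₂) (h12 : r₂ < r₁) (hη : 0 < η) :
    ∃ J : ℕ, ∀ F : ℕ → Cn b → E,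
      (∀ j ≤ J, DifferentiableOn ℂ (F j) (ball z₀ r₁) ∧ ∀ z ∈ ball z₀ r₁, ‖F j z‖ ≤ C) →
      ∃ i j : ℕ, i < j ∧ j ≤ J ∧ ∀ z ∈ closedBall z₀ r₂, ‖F j z - F i z‖ ≤ η := by
  classical
  have : ProperSpace E := FiniteDimensional.proper_rclike ℂ E
  by_cases hC : C < 0
  · refine ⟨0, fun F hF => ?_⟩
    have h1 := (hF 0 le_rfl).2 z₀ (mem_ball_self (by linarith))
    have h3 := norm_nonneg (F 0 z₀)
    linarith
  push Not at hC
  set ρ : ℝ := (r₁ - r₂) / 2 with hρ
  have hρ0 : 0 < ρ := by rw [hρ]; linarith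
  set Λ : ℝ := C / ρ with hΛ
  have hΛ0 : 0 ≤ Λ := by positivity
  -- Lipschitz bound
  have hlip : ∀ f : Cn b → E, DifferentiableOn ℂ f (ball z₀ r₁) → (∀ z ∈ ball z₀ r₁, ‖f z‖ ≤ C) →
      ∀ x ∈ closedBall z₀ r₂, ∀ y ∈ closedBall z₀ r₂, ‖f y - f x‖ ≤ Λ * ‖y - x‖ := by
    intro f hf hb x hx y hy
    refine Convex.norm_image_sub_le_of_norm_fderiv_le (𝕜 := ℂ) (s := closedBall z₀ r₂)
      (fun z hz => ?_) (fun z hz => ?_) (convex_closedBall _ _) hx hy
    · have hz1 : z ∈ ball z₀ r₁ := by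
        rw [mem_closedBall] at hz
        rw [mem_ball]
        linarith
      exact (hf z hz1).differentiableAt (isOpen_ball.mem_nhds hz1)
    · have hsub : ball z (2 * ρ) ⊆ ball z₀ r₁ := by
        intro u hu
        rw [mem_closedBall] at hz
        rw [mem_ball] at hu ⊢
        have := dist_triangle u z z₀
        linarith
      exact Pool.Agent.Helper8.Abund.norm_fderiv_le_of_bound hρ0 (hf.mono hsub) (fun u hu => hb u (hsub hu))
  -- nets
  set e : ℝ := η / (4 * Λ + 4) with he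
  have he0 : 0 < e := by positivity
  have hΛe : Λ * e ≤ η / 4 := by
    rw [he, mul_div_assoc', div_le_div_iff₀ (by positivity) (by norm_num)]
    nlinarith
  obtain ⟨Q, hQs, hQf, hQc⟩ := (isCompact_closedBall z₀ r₂).finite_cover_balls he0
  obtain ⟨R, hRs, hRf, hRc⟩ := (isCompact_closedBall (0 : E) C).finite_cover_balls
    (show (0 : ℝ) < η / 4 by positivity)
  have : Fintype Q := hQf.fintype
  have : Fintype R := hRf.fintype
  refine ⟨Fintype.card (Q → R), fun F hF => ?_⟩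
  have hcode : ∀ j : Fin (Fintype.card (Q → R) + 1), ∀ q : Q, ∃ r : R, ‖F j q.1 - r.1‖ < η / 4 := by
    intro j q
    have hq : (q : Cn b) ∈ ball z₀ r₁ := by
      have := hQs q.2
      rw [mem_closedBall] at this
      rw [mem_ball]
      linarith
    have h1 := (hF j (by omega)).2 q.1 hq
    have h3 : F j q.1 ∈ closedBall (0 : E) C := by rwa [mem_closedBall_zero_iff]
    have h4 := hRc h3
    simp only [mem_iUnion, exists_prop] at h4
    obtain ⟨r, hr, hr2⟩ := h4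
    exact ⟨⟨r, hr⟩, by rwa [mem_ball, dist_eq_norm] at hr2⟩
  choose c hc using hcode
  have hcard : Fintype.card (Q → R) < Fintype.card (Fin (Fintype.card (Q → R) + 1)) := by
    rw [Fintype.card_fin]
    exact Nat.lt_succ_self _
  obtain ⟨i, j, hij, hcij⟩ := Fintype.exists_ne_map_eq_of_card_lt c hcard
  have key : ∀ i j : Fin (Fintype.card (Q → R) + 1), c i = c j →
      ∀ z ∈ closedBall z₀ r₂, ‖F j z - F i z‖ ≤ η := by
    intro i j hcij z hz
    have h1 := hQc hz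
    simp only [mem_iUnion, exists_prop] at h1
    obtain ⟨q, hq, hzq⟩ := h1
    have hqb := hQs hq
    have e1 := hlip (F j) (hF j (by omega)).1 (hF j (by omega)).2 q hqb z hz
    have e2 := hlip (F i) (hF i (by omega)).1 (hF i (by omega)).2 z hz q hqb
    have e3 := hc j ⟨q, hq⟩
    have e4 := hc i ⟨q, hq⟩
    rw [hcij] at e4
    rw [mem_ball, dist_eq_norm] at hzq
    have hzq2 : ‖q - z‖ < e := by rwa [norm_sub_rev]
    have e5 : ‖F j z - F j q‖ ≤ η / 4 :=
      e1.trans ((mul_le_mul_of_nonneg_left hzq.le hΛ0).trans hΛe)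
    have e6 : ‖F i q - F i z‖ ≤ η / 4 :=
      e2.trans ((mul_le_mul_of_nonneg_left hzq2.le hΛ0).trans hΛe)
    have e7 : F j z - F i z = (F j z - F j q) + (F j q - ((c j ⟨q, hq⟩ : R) : E)) -
        (F i q - ((c j ⟨q, hq⟩ : R) : E)) + (F i q - F i z) := by abel
    rw [e7]
    calc _ ≤ ‖(F j z - F j q) + (F j q - ((c j ⟨q, hq⟩ : R) : E)) -
        (F i q - ((c j ⟨q, hq⟩ : R) : E))‖ + ‖F i q - F i z‖ := norm_add_le _ _
      _ ≤ (‖(F j z - F j q) + (F j q - ((c j ⟨q, hq⟩ : R) : E))‖ +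
        ‖F i q - ((c j ⟨q, hq⟩ : R) : E)‖) + ‖F i q - F i z‖ := by
          gcongr
          exact norm_sub_le _ _
      _ ≤ ((‖F j z - F j q‖ + ‖F j q - ((c j ⟨q, hq⟩ : R) : E)‖) +
        ‖F i q - ((c j ⟨q, hq⟩ : R) : E)‖) + ‖F i q - F i z‖ := by
          gcongr
          exact norm_add_le _ _
      _ ≤ η := by
          have e3' : ‖F j q - ((c j ⟨q, hq⟩ : R) : E)‖ ≤ η / 4 := e3.le
          have e4' : ‖F i q - ((c j ⟨q, hq⟩ : R) : E)‖ ≤ η / 4 := e4.le
          linarith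
  rcases lt_or_gt_of_ne hij with h | h
  · exact ⟨i, j, h, by omega, key i j hcij⟩
  · exact ⟨j, i, h, by omega, key j i hcij.symm⟩

theorem pig : S_PIG := by
  intro b k p z₀ r₁ r₂ C η h2 h12 hη
  exact pig_aux z₀ r₁ r₂ C η h2 h12 hη

end Pool.Agent.Helper48.LinK
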